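import Pool.Agent.helper62.VD.SpecE

set_option autoImplicit false

open MeasureTheory Filter Set Topology
open scoped ENNReal

namespace Pool.Agent.VDE

noncomputable section

section

variable {Γ S : Type} [Group Γ] [TopologicalSpace S] [MeasurableSpace S] [BorelSpace S] [MulAction Γ S]
  {μ : Measure S} {F0 K : Set S} {d : S → S → ℝ} {f : ℝ → S → S}

theorem EUC_dcomp (H : BF Γ S μ F0 K d f) {X : Type} [TopologicalSpace X] {a b : X → S} (ha : Continuous a)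
    (hb : Continuous b) : Continuous fun x => d (a x) (b x) := H.dc.comp (ha.prodMk hb)

theorem EUC_ball (H : BF Γ S μ F0 K d f) (x : S) (r : ℝ) : IsOpen {y | d x y < r} :=
  isOpen_lt (EUC_dcomp H continuous_const continuous_id) continuous_const

theorem EUC_nhd (H : BF Γ S μ F0 K d f) (x : S) {r : ℝ} (hr : 0 < r) : {y | d x y < r} ∈ 𝓝 x :=
  (EUC_ball H x r).mem_nhds (by show d x x < r; rw [H.dz]; exact hr)

theorem EUC_tr (H : BF Γ S μ F0 K d f) (x : S) : ∃ γ : Γ, γ • x ∈ K := by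
  obtain ⟨γ, h, -⟩ := H.uniq x
  exact ⟨γ, H.cpt.2 h⟩

theorem EUC_fc (H : BF Γ S μ F0 K d f) (s : ℝ) : Continuous (f s) :=
  H.fcn.comp (continuous_const.prodMk continuous_id)

theorem EUC_leb (H : BF Γ S μ F0 K d f) (P : S → S → Prop)
    (hP : ∀ x ∈ K, ∃ r : ℝ, 0 < r ∧ ∀ y z, d x y < r → d x z < r → P y z) :
    ∃ ε : ℝ, 0 < ε ∧ ∀ y ∈ K, ∀ z, d y z ≤ ε → P y z := by
  refine IsCompact.induction_on (p := fun A => ∃ ε : ℝ, 0 < ε ∧ ∀ y ∈ A, ∀ z, d y z ≤ ε → P y z) H.cpt.1 ?_ ?_ ?_ ?_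
  · exact ⟨1, one_pos, fun y hy => absurd hy (notMem_empty y)⟩
  · rintro s t hst ⟨ε, h1, h2⟩
    exact ⟨ε, h1, fun y hy => h2 y (hst hy)⟩
  · rintro s t ⟨ε, h1, h2⟩ ⟨ε', h1', h2'⟩
    refine ⟨min ε ε', lt_min h1 h1', ?_⟩
    rintro y (hy | hy) z hz
    · exact h2 y hy z (hz.trans (min_le_left _ _))
    · exact h2' y hy z (hz.trans (min_le_right _ _))
  · intro x hx
    obtain ⟨r, hr, h⟩ := hP x hx
    refine ⟨{y | d x y < r / 2}, mem_nhdsWithin_of_mem_nhds (EUC_nhd H x (by positivity)), r / 2, by positivity, ?_⟩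
    intro y hy z hz
    have hy' : d x y < r / 2 := hy
    exact h y z (by linarith) (lt_of_le_of_lt (H.dt x y z) (by linarith))

theorem EUC_1 (H : BF Γ S μ F0 K d f) (h : S → ℝ) (hh : TH Γ S h) (η : ℝ) (hη : 0 < η) :
    ∃ ε : ℝ, 0 < ε ∧ ∀ x y : S, d x y ≤ ε → |h x - h y| ≤ η := by
  obtain ⟨ε, hε, h1⟩ := EUC_leb H (fun y z => |h y - h z| ≤ η) (by
    intro x _
    obtain ⟨r, hr, h2⟩ := H.dn x {y | |h x - h y| < η / 2}
      (isOpen_lt ((continuous_const.sub hh.cont).abs) continuous_const)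
      (by show |h x - h x| < η / 2
          rw [sub_self, abs_zero]
          positivity)
    refine ⟨r, hr, fun y z hy hz => ?_⟩
    have hy' : |h x - h y| < η / 2 := h2 hy
    have hz' : |h x - h z| < η / 2 := h2 hz
    show |h y - h z| ≤ η
    rw [abs_lt] at hy' hz'
    rw [abs_le]
    constructor <;> linarith)
  refine ⟨ε, hε, fun x y hxy => ?_⟩
  obtain ⟨γ, hγ⟩ := EUC_tr H x
  have h3 : |h (γ • x) - h (γ • y)| ≤ η := h1 (γ • x) hγ (γ • y) (by rw [H.di]; exact hxy)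
  rw [hh.inv, hh.inv] at h3
  exact h3

theorem EUC_2 (H : BF Γ S μ F0 K d f) (T ε : ℝ) (hε : 0 < ε) :
    ∃ δ : ℝ, 0 < δ ∧ ∀ x y : S, d x y ≤ δ → ∀ s : ℝ, |s| ≤ T → d (f s x) (f s y) ≤ ε := by
  obtain ⟨δ, hδ, h1⟩ := EUC_leb H (fun y z => ∀ s : ℝ, |s| ≤ T → d (f s y) (f s z) ≤ ε) (by
    intro x _
    have hc : Continuous fun p : ℝ × S => d (f p.1 x) (f p.1 p.2) :=
      EUC_dcomp H (H.fcn.comp (continuous_fst.prodMk continuous_const)) H.fcn
    have ho : IsOpen {p : ℝ × S | d (f p.1 x) (f p.1 p.2) < ε / 2} := isOpen_lt hc continuous_const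
    obtain ⟨u, v, -, hv, hu1, hv1, huv⟩ := generalized_tube_lemma (isCompact_Icc (a := -T) (b := T))
      (isCompact_singleton (x := x)) ho (by
      rintro ⟨s, y⟩ ⟨_, hy⟩
      have hy' : y = x := hy
      show d (f s x) (f s y) < ε / 2
      rw [hy', H.dz]
      positivity)
    obtain ⟨r, hr, h2⟩ := H.dn x v hv (hv1 rfl)
    refine ⟨r, hr, fun y z hy hz s hs => ?_⟩
    have hsu : s ∈ u := hu1 (abs_le.1 hs)
    have e1 : d (f s x) (f s y) < ε / 2 := huv (mk_mem_prod hsu (h2 hy))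
    have e2 : d (f s x) (f s z) < ε / 2 := huv (mk_mem_prod hsu (h2 hz))
    have e3 := H.dt (f s y) (f s x) (f s z)
    rw [H.ds (f s y) (f s x)] at e3
    linarith)
  refine ⟨δ, hδ, fun x y hxy s hs => ?_⟩
  obtain ⟨γ, hγ⟩ := EUC_tr H x
  have h3 : d (f s (γ • x)) (f s (γ • y)) ≤ ε := h1 (γ • x) hγ (γ • y) (by rw [H.di]; exact hxy) s hs
  rw [H.fe, H.fe, H.di] at h3
  exact h3

theorem EUC_3 (H : BF Γ S μ F0 K d f) (ε : ℝ) (hε : 0 < ε) :
    ∃ δ : ℝ, 0 < δ ∧ ∀ (x : S) (s : ℝ), |s| ≤ δ → d x (f s x) ≤ ε := by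
  have h1 : ∃ δ : ℝ, 0 < δ ∧ ∀ x ∈ K, ∀ s : ℝ, |s| ≤ δ → d x (f s x) ≤ ε := by
    refine IsCompact.induction_on (p := fun A => ∃ δ : ℝ, 0 < δ ∧ ∀ x ∈ A, ∀ s : ℝ, |s| ≤ δ → d x (f s x) ≤ ε)
      H.cpt.1 ?_ ?_ ?_ ?_
    · exact ⟨1, one_pos, fun y hy => absurd hy (notMem_empty y)⟩
    · rintro s t hst ⟨δ, h1, h2⟩
      exact ⟨δ, h1, fun y hy => h2 y (hst hy)⟩
    · rintro s t ⟨δ, h1, h2⟩ ⟨δ', h1', h2'⟩
      refine ⟨min δ δ', lt_min h1 h1', ?_⟩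
      rintro y (hy | hy) z hz
      · exact h2 y hy z (hz.trans (min_le_left _ _))
      · exact h2' y hy z (hz.trans (min_le_right _ _))
    · intro x _
      have hc : Continuous fun p : ℝ × S => d p.2 (f p.1 p.2) := EUC_dcomp H continuous_snd H.fcn
      have ho : IsOpen {p : ℝ × S | d p.2 (f p.1 p.2) < ε} := isOpen_lt hc continuous_const
      have hm : {p : ℝ × S | d p.2 (f p.1 p.2) < ε} ∈ 𝓝 ((0 : ℝ), x) :=
        ho.mem_nhds (by show d x (f 0 x) < ε; rw [H.f0, H.dz]; exact hε)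
      obtain ⟨u, hu, v, hv, huv⟩ := mem_nhds_prod_iff.1 hm
      obtain ⟨δ, hδ, h2⟩ := Metric.mem_nhds_iff.1 hu
      refine ⟨v, mem_nhdsWithin_of_mem_nhds hv, δ / 2, by positivity, fun y hy s hs => ?_⟩
      have h3 : s ∈ u := h2 (by rw [Metric.mem_ball, Real.dist_eq, sub_zero]; linarith)
      have h4 : d y (f s y) < ε := huv (mk_mem_prod h3 hy)
      exact h4.le
  obtain ⟨δ, hδ, h2⟩ := h1
  refine ⟨δ, hδ, fun x s hs => ?_⟩
  obtain ⟨γ, hγ⟩ := EUC_tr H x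
  have h3 := h2 (γ • x) hγ s hs
  rw [H.fe, H.di] at h3
  exact h3

theorem EUC_5 (H : BF Γ S μ F0 K d f) (x : S) (T ε : ℝ) : IsClosed (BB d f T x ε) := by
  have h1 : BB d f T x ε = ⋂ s ∈ Icc (0 : ℝ) T, {y | d (f s x) (f s y) ≤ ε} := by
    ext y
    rw [mem_iInter₂]
    rfl
  rw [h1]
  exact isClosed_biInter fun s _ => isClosed_le (EUC_dcomp H continuous_const (EUC_fc H s)) continuous_const

theorem EUC_6 (H : BF Γ S μ F0 K d f) (γ : Γ) (x : S) (T ε : ℝ) :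
    μ (BB d f T (γ • x) ε) = μ (BB d f T x ε) := by
  rw [← (H.mact γ).measure_preimage (EUC_5 H (γ • x) T ε).measurableSet.nullMeasurableSet]
  congr 1
  ext y
  show (∀ s ∈ Icc (0 : ℝ) T, d (f s (γ • x)) (f s (γ • y)) ≤ ε) ↔ ∀ s ∈ Icc (0 : ℝ) T, d (f s x) (f s y) ≤ ε
  refine forall₂_congr fun s _ => ?_
  rw [H.fe, H.fe, H.di]

theorem EUC_4 (H : BF Γ S μ F0 K d f) (T ε : ℝ) (hε : 0 < ε) :
    ∃ c : ℝ, 0 < c ∧ ∀ (x : S) (t : ℝ), t ≤ T → ENNReal.ofReal c ≤ μ (BB d f t x ε) := by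
  obtain ⟨δ, hδ, h2⟩ := EUC_2 H T ε hε
  have h1 : ∃ c : ℝ, 0 < c ∧ ∀ x ∈ K, ∀ t : ℝ, t ≤ T → ENNReal.ofReal c ≤ μ (BB d f t x ε) := by
    refine IsCompact.induction_on (p := fun A => ∃ c : ℝ, 0 < c ∧ ∀ x ∈ A, ∀ t : ℝ, t ≤ T →
      ENNReal.ofReal c ≤ μ (BB d f t x ε)) H.cpt.1 ?_ ?_ ?_ ?_
    · exact ⟨1, one_pos, fun y hy => absurd hy (notMem_empty y)⟩
    · rintro s t hst ⟨c, h3, h4⟩
      exact ⟨c, h3, fun y hy => h4 y (hst hy)⟩
    · rintro s t ⟨c, h3, h4⟩ ⟨c', h3', h4'⟩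
      refine ⟨min c c', lt_min h3 h3', ?_⟩
      rintro y (hy | hy) z hz
      · exact (ENNReal.ofReal_le_ofReal (min_le_left _ _)).trans (h4 y hy z hz)
      · exact (ENNReal.ofReal_le_ofReal (min_le_right _ _)).trans (h4' y hy z hz)
    · intro x0 _
      have hpos : 0 < μ {y | d x0 y < δ / 2} := H.pos _ (EUC_ball H x0 _)
        ⟨x0, by show d x0 x0 < δ / 2; rw [H.dz]; positivity⟩
      have hft : min 1 (μ {y | d x0 y < δ / 2}) ≠ ⊤ := ne_top_of_le_ne_top ENNReal.one_ne_top (min_le_left _ _)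
      obtain ⟨c, hc0, hc1⟩ : ∃ c : ℝ, 0 < c ∧ ENNReal.ofReal c ≤ μ {y | d x0 y < δ / 2} := by
        refine ⟨(min 1 (μ {y | d x0 y < δ / 2})).toReal, ENNReal.toReal_pos (lt_min one_pos hpos).ne' hft, ?_⟩
        rw [ENNReal.ofReal_toReal hft]
        exact min_le_right _ _
      refine ⟨{x | d x0 x < δ / 2}, mem_nhdsWithin_of_mem_nhds (EUC_nhd H x0 (by positivity)), c, hc0,
        fun x hx t ht => hc1.trans (measure_mono fun y hy s hs => ?_)⟩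
      have hx' : d x0 x < δ / 2 := hx
      have hy' : d x0 y < δ / 2 := hy
      refine h2 x y ?_ s ?_
      · have := H.dt x x0 y
        rw [H.ds x x0] at this
        linarith
      · rw [abs_of_nonneg hs.1]
        exact hs.2.trans ht
  obtain ⟨c, hc, h3⟩ := h1
  refine ⟨c, hc, fun x t ht => ?_⟩
  obtain ⟨γ, hγ⟩ := EUC_tr H x
  have h4 := h3 (γ • x) hγ t ht
  rwa [EUC_6 H] at h4

theorem EUC_7 [SecondCountableTopology S] (H : BF Γ S μ F0 K d f) (h : S → ℝ) (T : ℝ) (hh : TH Γ S h) :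
    Continuous (av f h T) := by
  have hc : Continuous (Function.uncurry fun (x : S) (t : ℝ) => h (f t x)) :=
    hh.cont.comp (H.fcn.comp (continuous_snd.prodMk continuous_fst))
  show Continuous fun x => T⁻¹ * ∫ t in (0 : ℝ)..T, h (f t x)
  exact continuous_const.mul
    (intervalIntegral.continuous_parametric_intervalIntegral_of_continuous hc continuous_const)

end

theorem EUC_proof : EUC_stmt := by
  intro Γ S _ _ _ _ _ _ μ F0 K d f H
  exact ⟨fun h hh η hη => EUC_1 H h hh η hη, fun T ε hε => EUC_2 H T ε hε, fun ε hε => EUC_3 H ε hε,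
    fun T ε hε => EUC_4 H T ε hε, fun x T ε => EUC_5 H x T ε, fun γ x T ε => EUC_6 H γ x T ε,
    fun h T hh => EUC_7 H h T hh⟩

end

end Pool.Agent.VDE
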